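import Pool.Agent.TH791.GL.Par
import Pool.Agent.TH794.LL2.Fin2
import Pool.Agent.TH794.GBK.Fin

/-! The two-sided local law for unbounded disorder. -/

set_option autoImplicit false
set_option linter.unusedSectionVars false

open scoped BigOperators
open MeasureTheory

namespace Pool.Agent.TH791.GL

open Pool.Agent.W788.BK
open Pool.Agent.W788.LD.Spec (S)
open Pool.Agent.H4R2.LO (Zd)
open Pool.Agent.H4R2
open Pool.Agent.W788.BK.Num
open Pool.Agent.TH794.LL2
open Pool.Agent.TH794.GBK (clip clip_abs clip_eq clip_meas)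

/-- the numbers -/
theorem nums2 (d : ℕ) (A y0 : ℝ) (hA : 0 < A) : ∃ Y0 : ℝ, ∀ Y : ℝ, Y0 ≤ Y →
    400000 ≤ Y ∧ y0 ≤ 99 / 100 * Y - Real.log 2 ∧
    Real.exp (-Real.exp ((99 / 100 * Y - Real.log 2) / 100)) ≤
      1 / 2 * Real.exp (-Real.exp (Y / 200)) ∧
    Real.exp (Y / 200) ≤ Real.exp ((99 / 100 * Y - Real.log 2) / 100) ∧
    2 * (Real.exp (Real.exp (Y / 200)) + Real.exp (7 * (99 / 100 * Y - Real.log 2))) + 1 ≤
      Real.exp (2 * Real.exp (Y / 200)) ∧
    Real.exp (2 * Real.exp (Y / 200)) ^ d * (A * Real.exp (-Real.exp (Y / 100))) ≤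
      1 / 2 * Real.exp (-Real.exp (Y / 200)) := by
  obtain ⟨Y0, hY0⟩ := Pool.Agent.TH794.GBK.nums d A y0 hA
  refine ⟨max Y0 800000, fun Y hY => ?_⟩
  obtain ⟨n1, n2, n3, n4, n5, n6⟩ := hY0 Y ((le_max_left _ _).trans hY)
  refine ⟨n1, n2, n3, n4, ?_, n6⟩
  obtain ⟨X, hX⟩ : ∃ X, X = Real.exp (Y / 200) := ⟨_, rfl⟩
  have l2 := Real.log_two_gt_d9
  have hX0 : 8 * Y ≤ X := by
    have e1 := Real.quadratic_le_exp_of_nonneg (show 0 ≤ Y / 200 by linarith)
    rw [← hX] at e1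
    have hY8 : 800000 ≤ Y := (le_max_right _ _).trans hY
    nlinarith
  rw [← hX]
  have e2 : Real.exp (7 * (99 / 100 * Y - Real.log 2)) ≤ Real.exp (X - 1) := by
    apply Real.exp_le_exp.2
    linarith
  have e3 : (8 : ℝ) ≤ Real.exp X := by
    have := Real.add_one_le_exp X
    linarith
  have e4 : Real.exp (2 * X) = Real.exp X * Real.exp X := by
    rw [← Real.exp_add]
    ring_nf
  have e5 : Real.exp (X - 1) ≤ Real.exp X := Real.exp_le_exp.2 (by linarith)
  rw [e4]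
  nlinarith

/-- clipping at `b` and centring: the field, with the event that it is not changed near the box -/
theorem clipped (d : ℕ) (A : ℝ) (Y b R : ℝ) (μ : Measure ℝ) (hμ : IsProbabilityMeasure μ)
    (hb : b = Real.exp (Y / 100)) (hR0 : 0 ≤ R)
    (n5 : 2 * R + 1 ≤ Real.exp (2 * Real.exp (Y / 200)))
    (n6 : Real.exp (2 * Real.exp (Y / 200)) ^ d * (A * Real.exp (-Real.exp (Y / 100))) ≤
      1 / 2 * Real.exp (-Real.exp (Y / 200)))
    (hA : 0 < A)
    (htail : ∀ r : ℝ, 0 ≤ r → μ.real {s | r < |s|} ≤ A * Real.exp (-r)) :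
    ∃ (M0 : ℝ) (F : ℝ → ℝ), |M0| ≤ b ∧ M0 = ∫ s, clip b s ∂μ ∧
      (F = fun s => (clip b s - M0) / (2 * b)) ∧ Measurable F ∧
      IsProbabilityMeasure (μ.map F) ∧ (∀ᵐ s ∂(μ.map F), |s| ≤ 1) ∧
      ∫ s, s ∂(μ.map F) = 0 ∧
      ∀ (G1 : Set (Zd d → ℝ)), MeasurableSet G1 →
        1 - 1 / 2 * Real.exp (-Real.exp (Y / 200)) ≤
          (Measure.infinitePi fun _ : Zd d => μ.map F).real G1 →
        ∃ G : Set (Zd d → ℝ), MeasurableSet G ∧
          1 - Real.exp (-Real.exp (Y / 200)) ≤ (Measure.infinitePi fun _ : Zd d => μ).real G ∧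
          ∀ ξ ∈ G, (fun x => F (ξ x)) ∈ G1 ∧ ∀ x : Zd d, ‖x‖ ≤ R → clip b (ξ x) = ξ x := by
  have hb0 : 0 < b := by rw [hb]; positivity
  obtain ⟨M0, hM0⟩ : ∃ M0, M0 = ∫ s, clip b s ∂μ := ⟨_, rfl⟩
  have hcm := clip_meas b
  have hint : Integrable (fun s : ℝ => clip b s) μ := by
    refine Integrable.of_bound (C := b) hcm.aestronglyMeasurable (Filter.Eventually.of_forall ?_)
    intro s
    rw [Real.norm_eq_abs]
    exact clip_abs b s hb0.le
  have hM0b : |M0| ≤ b := by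
    rw [hM0, ← Real.norm_eq_abs]
    have h1 := norm_integral_le_of_norm_le_const (μ := μ) (f := fun s : ℝ => clip b s) (C := b)
      (Filter.Eventually.of_forall (by
        intro s
        rw [Real.norm_eq_abs]
        exact clip_abs b s hb0.le))
    rw [probReal_univ, mul_one] at h1
    exact h1
  obtain ⟨F, hF⟩ : ∃ F : ℝ → ℝ, F = fun s => (clip b s - M0) / (2 * b) := ⟨_, rfl⟩
  have hFm : Measurable F := by
    rw [hF]
    fun_prop
  have hFb : ∀ s, |F s| ≤ 1 := by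
    intro s
    rw [hF]
    simp only
    rw [abs_div, abs_of_pos (show 0 < 2 * b by positivity), div_le_one (by positivity)]
    have h1 := abs_sub (clip b s) M0
    have h2 := clip_abs b s hb0.le
    linarith
  have hνp : IsProbabilityMeasure (μ.map F) :=
    Measure.isProbabilityMeasure_map hFm.aemeasurable
  have hνb : ∀ᵐ s ∂(μ.map F), |s| ≤ 1 := by
    rw [ae_map_iff hFm.aemeasurable (measurableSet_le (by fun_prop) (by fun_prop))]
    exact Filter.Eventually.of_forall hFb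
  have hν0 : ∫ s, s ∂(μ.map F) = 0 := by
    rw [integral_map hFm.aemeasurable (by fun_prop), hF, integral_div,
      integral_sub hint (integrable_const _), integral_const, probReal_univ, one_smul, hM0,
      sub_self, zero_div]
  refine ⟨M0, F, hM0b, hM0, hF, hFm, hνp, hνb, hν0, fun G1 hG1 hP1 => ?_⟩
  have hTm : Measurable (fun (ω : Zd d → ℝ) x => F (ω x)) := by fun_prop
  have hlaw : (Measure.infinitePi fun _ : Zd d => μ).map (fun ω x => F (ω x)) =
      Measure.infinitePi fun _ : Zd d => μ.map F :=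
    Measure.infinitePi_map_pi (μ := fun _ : Zd d => μ)
      (f := fun _ (s : ℝ) => F s) (fun _ => by fun_prop)
  obtain ⟨G1', hG1'⟩ : ∃ G1', G1' = (fun (ω : Zd d → ℝ) x => F (ω x)) ⁻¹' G1 := ⟨_, rfl⟩
  have hG1m : MeasurableSet G1' := by
    rw [hG1']
    exact hTm hG1
  have hPP1 : 1 - 1 / 2 * Real.exp (-Real.exp (Y / 200)) ≤
      (Measure.infinitePi fun _ : Zd d => μ).real G1' := by
    have h1 : (Measure.infinitePi fun _ : Zd d => μ).real G1' =
        (Measure.infinitePi fun _ : Zd d => μ.map F).real G1 := by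
      rw [hG1', ← hlaw, map_measureReal_apply hTm hG1]
    rw [h1]
    exact hP1
  obtain ⟨B0, hB0⟩ : ∃ B0 : Finset (Zd d), B0 = LO.bx (0 : Zd d) ⌊R⌋₊ := ⟨_, rfl⟩
  have hSm : ∀ a : Zd d, MeasurableSet {ω : Zd d → ℝ | b < |ω a|} := fun a =>
    measurableSet_lt measurable_const (by fun_prop)
  have hSa : ∀ a : Zd d, (Measure.infinitePi fun _ : Zd d => μ).real {ω : Zd d → ℝ | b < |ω a|} ≤
      A * Real.exp (-b) := by
    intro a
    have h1 : (Measure.infinitePi fun _ : Zd d => μ).real {ω : Zd d → ℝ | b < |ω a|} =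
        μ.real {s | b < |s|} := by
      have h2 := Measure.infinitePi_map_eval (fun _ : Zd d => μ) a
      have h3 : {ω : Zd d → ℝ | b < |ω a|} = (Function.eval a) ⁻¹' {s : ℝ | b < |s|} := rfl
      rw [h3, ← map_measureReal_apply (measurable_pi_apply a)
        (measurableSet_lt measurable_const (by fun_prop)), h2]
    rw [h1]
    exact htail b hb0.le
  obtain ⟨G2, hG2⟩ : ∃ G2 : Set (Zd d → ℝ), G2 = ⋂ a ∈ B0, {ω : Zd d → ℝ | b < |ω a|}ᶜ :=
    ⟨_, rfl⟩
  have hG2m : MeasurableSet G2 := by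
    rw [hG2]
    exact Finset.measurableSet_biInter _ fun a _ => (hSm a).compl
  have hP2 : (Measure.infinitePi fun _ : Zd d => μ).real G2ᶜ ≤
      1 / 2 * Real.exp (-Real.exp (Y / 200)) := by
    have e1 : G2ᶜ = ⋃ a ∈ B0, {ω : Zd d → ℝ | b < |ω a|} := by
      rw [hG2]
      simp only [Set.compl_iInter, compl_compl]
    rw [e1]
    refine (measureReal_biUnion_finset_le _ _).trans
      ((Finset.sum_le_sum fun a _ => hSa a).trans ?_)
    rw [Finset.sum_const, nsmul_eq_mul, hB0, LO.Em.card_bx]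
    rw [← hb] at n6
    refine le_trans ?_ n6
    apply mul_le_mul_of_nonneg_right _ (by positivity)
    push_cast
    apply pow_le_pow_left₀ (by positivity)
    have := Nat.floor_le hR0
    linarith
  refine ⟨G1' ∩ G2, hG1m.inter hG2m, ?_, ?_⟩
  · have h1 := probReal_add_probReal_compl (μ := Measure.infinitePi fun _ : Zd d => μ)
      (hG1m.inter hG2m)
    have h2 := probReal_add_probReal_compl (μ := Measure.infinitePi fun _ : Zd d => μ) hG1m
    have h3 : (Measure.infinitePi fun _ : Zd d => μ).real (G1' ∩ G2)ᶜ ≤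
        (Measure.infinitePi fun _ : Zd d => μ).real G1'ᶜ +
        (Measure.infinitePi fun _ : Zd d => μ).real G2ᶜ := by
      rw [Set.compl_inter]
      exact measureReal_union_le _ _
    linarith
  · intro ξ hξ
    refine ⟨?_, ?_⟩
    · have h2 := hξ.1
      rw [hG1'] at h2
      exact h2
    · intro x hx
      have hxB : x ∈ B0 := by
        rw [hB0]
        exact Pool.Agent.W788.Gen3.norm_zd x R hx
      have h1 := hξ.2
      rw [hG2] at h1
      have h2 := Set.mem_iInter₂.1 h1 x hxB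
      simp only [Set.mem_compl_iff, Set.mem_ofPred_eq, not_lt] at h2
      exact clip_eq b _ h2

/-- **the local law, unbounded disorder** -/
theorem core (d : ℕ) (hd : 3 ≤ d) (A : ℝ) (hA : 0 < A) :
    ∃ Y0 : ℝ, 1 ≤ Y0 ∧ ∀ Y : ℝ, Y0 ≤ Y → ∀ (μ : Measure ℝ), IsProbabilityMeasure μ →
      (∀ r : ℝ, 0 ≤ r → μ.real {s | r < |s|} ≤ A * Real.exp (-r)) →
      ∃ G : Set (Zd d → ℝ), MeasurableSet G ∧
        1 - Real.exp (-Real.exp (Y / 200)) ≤ (Measure.infinitePi fun _ : Zd d => μ).real G ∧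
        ∀ ξ ∈ G, ∀ a : Zd d, ‖a‖ ≤ Real.exp (Real.exp (Y / 200)) →
          ∀ m m0 : Measure ℝ, IsFiniteMeasure m → IsFiniteMeasure m0 →
          Res d (fun x => 2 * d + -(Real.exp (-Y) * ξ x)) a m → Res d (fun _ => 2 * d) a m0 →
          ∀ E s : ℝ, Real.exp (-(41 / 20) * Y) ≤ s →
            |m.real (Set.Icc (E - s) (E + s)) - m0.real (Set.Icc (E - s) (E + s))| ≤
              Real.exp (-(1 / 250) * Y) * s := by
  obtain ⟨y0, h0⟩ := engine2x Pool.Agent.W193.BK.ES.es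
    (Pool.Agent.W261.BK.third Pool.Agent.W540.BK.fac)
    (Pool.Agent.W240.BK.fluct (Pool.Agent.W240.BK.var Pool.Agent.W193.BK.ES.es))
    Pool.Agent.W475.BK.inv Pool.Agent.W918.BK.Osc.osc Pool.Agent.W975.BK.sup
    (Pool.Agent.W465.BK.qb (Pool.Agent.W240.BK.two Pool.Agent.W918.BK.Osc.osc))
    Pool.Agent.W475.BK.low Pool.Agent.W790.BK.ADM.adm d hd 1 one_pos
  obtain ⟨K, hK⟩ : ∃ K, K = KK d := ⟨_, rfl⟩
  have hK3 : 3 ≤ K := by rw [hK]; exact KK_ge d
  obtain ⟨y2, hy2⟩ := Filter.eventually_atTop.1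
    ((ev2 12 (-(11 / 1000)) (-(1 / 200)) 0 (by norm_num)).and
    ((ev2 (4 * K * 1 ^ (1 / 4 : ℝ)) (-(1 / 4)) (-(1 / 200)) 0 (by norm_num)).and
    (ev2 (800 * K) (-(211 / 100)) (-(421 / 200)) 1 (by norm_num))))
  obtain ⟨Y0, hY0⟩ := nums2 d A (max y0 y2) hA
  refine ⟨max Y0 1, le_max_right _ _, ?_⟩
  intro Y hY μ hμ htail
  obtain ⟨n1, n2, n3, n4, n5, n6⟩ := hY0 Y ((le_max_left _ _).trans hY)
  obtain ⟨y, hy⟩ : ∃ y, y = 99 / 100 * Y - Real.log 2 := ⟨_, rfl⟩
  rw [← hy] at n2 n3 n4 n5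
  have l1 := Real.log_two_lt_d9
  have l2 := Real.log_two_gt_d9
  have hy1 : 1 ≤ y := by rw [hy]; linarith
  obtain ⟨b, hb⟩ : ∃ b, b = Real.exp (Y / 100) := ⟨_, rfl⟩
  have hb0 : 0 < b := by rw [hb]; positivity
  have hσb : Real.exp (-1 * y) = 2 * b * Real.exp (-Y) := by
    have e1 : (2 : ℝ) * b * Real.exp (-Y) = Real.exp (Real.log 2 + (Y / 100 + -Y)) := by
      rw [Real.exp_add, Real.exp_add, Real.exp_log (by norm_num), hb]
      ring
    rw [e1]
    congr 1
    rw [hy]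
    ring
  obtain ⟨R, hR⟩ : ∃ R, R = Real.exp (Real.exp (Y / 200)) + Real.exp (7 * y) := ⟨_, rfl⟩
  have hR0 : 0 ≤ R := by rw [hR]; positivity
  rw [← hR] at n5
  obtain ⟨M0, F, hM0b, hM0, hF, hFm, hνp, hνb, hν0, hG⟩ := clipped d A Y b R μ hμ hb hR0 n5 n6 hA
    htail
  obtain ⟨Gf, G1, hG1, hP1, hGf1, hGf2, hL, hFr⟩ := h0 y ((le_max_left _ _).trans n2) _ hνp hνb hν0
  rw [← hK] at hGf1 hGf2
  obtain ⟨m1, m2, m3⟩ := hy2 y ((le_max_right _ _).trans n2)
  simp only [pow_zero, mul_one, pow_one] at m1 m2 m3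
  obtain ⟨G, hGm, hGP, hGG⟩ := hG G1 hG1 (by linarith)
  refine ⟨G, hGm, hGP, fun ξ hξ a ha m m0 hm hm0 hr hr0 E s hs => ?_⟩
  obtain ⟨q1, q2⟩ := hGG ξ hξ
  -- the field, and the field of the engine
  obtain ⟨ω, hω⟩ : ∃ ω : Zd d → ℝ, ω = fun x => -(ξ x) / (2 * b) := ⟨_, rfl⟩
  obtain ⟨M1, hM1⟩ : ∃ M1, M1 = -M0 / (2 * b) := ⟨_, rfl⟩
  have hM1b : |M1| ≤ 1 := by
    rw [hM1, abs_div, abs_neg, abs_of_pos (show 0 < 2 * b by positivity),
      div_le_one (by positivity)]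
    linarith
  have hmain := det d K 1 M1 y hy1 hM1b zero_le_one (by linarith) m1 (by simpa using m2) m3 Gf
    hGf1 hGf2 (fun x => M1 - ω x) ω (fun x => rfl) a (fun E ur ui h => by
      refine hL _ q1 a (ha.trans (Real.exp_le_exp.2 n4)) _ ?_ E ur ui h
      intro x hx
      have hxR : ‖x‖ ≤ R := by
        have h1 := norm_add_le (x - a) a
        rw [sub_add_cancel] at h1
        rw [hR]
        linarith
      rw [hF]
      simp only
      rw [q2 x hxR, hω, hM1]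
      field_simp
      ring) hFr m m0 ?_ hr0 E s ?_
  · refine hmain.trans ?_
    have hs0 : 0 < s := lt_of_lt_of_le (Real.exp_pos _) hs
    apply mul_le_mul_of_nonneg_right _ hs0.le
    apply Real.exp_le_exp.2
    rw [hy]
    linarith
  · have e1 : (fun x => 2 * (d : ℝ) + Real.exp (-1 * y) * ω x) =
        fun x => 2 * d + -(Real.exp (-Y) * ξ x) := by
      funext x
      rw [hσb, hω]
      field_simp
    rw [e1]
    exact hr
  · refine le_trans ?_ hs
    apply Real.exp_le_exp.2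
    rw [hy]
    linarith

end Pool.Agent.TH791.GL
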